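import Pool.Agent.MP_122bd4_an.Main

/-! With the sup norm as target and the bounded variation norm as domain, every dominated Hilbert
norm loses a factor `√(log m)`. -/

open Pool.Agent.MP_122bd4_an

namespace Pool.Agent.Results.MP_122bd4_an.ExponentLower

theorem result (m : ℕ) (hm : 2 ≤ m) (A : Matrix (Fin m) (Fin m) ℝ) (hA : A.PosDef)
    (h : ∀ v, hn A v ≤ bv v) :
    ENNReal.ofReal (√(Real.log m) / 5000) * alpha {v : Fin m → ℝ | bv v ≤ 1} <
      alpha {v | hn A v ≤ 1} := by
  have l0 : 0 < Real.log m := Real.log_pos (by exact_mod_cast hm)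
  have s0 : 0 < √(Real.log m) := Real.sqrt_pos.2 l0
  refine lt_of_lt_of_le ?_ (alpha_hn hm hA fun i => (h _).trans_eq (bv_step i))
  refine (mul_le_mul_right (alpha_bv hm) _).trans_lt ?_
  rw [← ENNReal.ofReal_mul (by positivity), ENNReal.ofReal_lt_ofReal_iff (by positivity)]
  nlinarith [mul_pos l0 s0]

end Pool.Agent.Results.MP_122bd4_an.ExponentLower
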