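import Pool.Agent.MP_122bd4_an.Zon.Sharp

/-! Targets of type 2: the optimal loss for quotients of 2-convex unconditional norms. -/

open Pool.Agent.MP_122bd4_an

namespace Pool.Agent.Results.MP_122bd4_an.TypeTwoTarget

theorem result (m : ℕ) (hm : 2 ≤ m) (θ : ℝ) (h0 : 0 ≤ θ) (h1 : θ ≤ 1 / 2) :
    (∀ (X Y : Seminorm ℝ (Fin m → ℝ)) (τ : ℝ), 0 < τ → ConvexQuot θ X → (∀ v, Y v = 0 → v = 0) →
      TypeTwo τ Y → ∃ A : Matrix (Fin m) (Fin m) ℝ, A.PosDef ∧ (∀ v, hn A v ≤ X v) ∧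
        bal (hn A) Y ≤ ENNReal.ofReal (50400 * τ * Real.log m ^ (1 / 2 - θ)) * bal X Y) ∧
    ∃ X Y : Seminorm ℝ (Fin m → ℝ), ConvexQuot θ X ∧ (∀ v, Y v = 0 → v = 0) ∧ TypeTwo 1 Y ∧
      ∀ A : Matrix (Fin m) (Fin m) ℝ, A.PosDef → (∀ v, hn A v ≤ X v) →
        ENNReal.ofReal (Real.log m ^ (1 / 2 - θ) / 3) * bal X Y < bal (hn A) Y :=
  ⟨fun _ _ _ τ0 hX hY hT => Zon.upper hm h0 h1 τ0 hX hY hT, Zon.sharp hm h0 h1⟩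

end Pool.Agent.Results.MP_122bd4_an.TypeTwoTarget
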