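import Pool.Agent.MP_122bd4_an.Unc.Sharp

/-! For unconditional norms the optimal loss is of order `√(log m)`. -/

open Pool.Agent.MP_122bd4_an

namespace Pool.Agent.Results.MP_122bd4_an.UnconditionalSharp

theorem result (m : ℕ) (hm : 2 ≤ m) :
    (∀ X Y : Seminorm ℝ (Fin m → ℝ), UncNorm X → UncNorm Y →
      ∃ A : Matrix (Fin m) (Fin m) ℝ, A.PosDef ∧ A.IsDiag ∧ (∀ v, hn A v ≤ X v) ∧
        bal (hn A) Y ≤ ENNReal.ofReal (300000 * √(Real.log m)) * bal X Y) ∧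
    ∃ X Y : Seminorm ℝ (Fin m → ℝ), UncNorm X ∧ UncNorm Y ∧
      ∀ A : Matrix (Fin m) (Fin m) ℝ, A.PosDef → (∀ v, hn A v ≤ X v) →
        ENNReal.ofReal (√(Real.log m) / 100) * bal X Y < bal (hn A) Y := by
  refine ⟨fun X Y => Unc.upper hm, Unc.exX m, Unc.exY m, Unc.exX_unc, Unc.exY_unc,
    fun A hA h => lt_of_lt_of_le ?_ (Unc.ex_lower hm hA h)⟩
  have l0 : 0 < Real.log m := Real.log_pos (by exact_mod_cast hm)
  have s0 : 0 < √(Real.log m) := Real.sqrt_pos.2 l0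
  refine (mul_le_mul_right (Unc.ex_upper hm) _).trans_lt ?_
  rw [← ENNReal.ofReal_mul (by positivity), ENNReal.ofReal_lt_ofReal_iff (by positivity)]
  nlinarith [mul_pos l0 s0]

end Pool.Agent.Results.MP_122bd4_an.UnconditionalSharp
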